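import Pool.Agent.helper73.AD.GW1

/-!
WA0: conjugation and scalar product.
-/

open scoped MatrixGroups LinearAlgebra.Projectivization BigOperators
open Matrix UpperHalfPlane
open Pool.Agent.helper73.AD (PS Word Arc sg Cone)

namespace AdSBend

noncomputable section

open LeafSystem

theorem WA0_inv_mul (g : SL(2, ℝ)) : (g⁻¹).1 * g.1 = 1 := by
  rw [← Matrix.SpecialLinearGroup.coe_mul, inv_mul_cancel]; rfl

theorem WA0_mul_inv (g : SL(2, ℝ)) : g.1 * (g⁻¹).1 = 1 := by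
  rw [← Matrix.SpecialLinearGroup.coe_mul, mul_inv_cancel]; rfl

theorem WA0_cj_mul (g : SL(2, ℝ)) (X Y : M2) : cj g (X * Y) = cj g X * cj g Y := by
  unfold cj
  have h := WA0_inv_mul g
  calc g.1 * (X * Y) * (g⁻¹).1 = g.1 * X * (1 : M2) * Y * (g⁻¹).1 := by
        rw [Matrix.mul_one]; noncomm_ring
    _ = g.1 * X * ((g⁻¹).1 * g.1) * Y * (g⁻¹).1 := by rw [h]
    _ = g.1 * X * (g⁻¹).1 * (g.1 * Y * (g⁻¹).1) := by noncomm_ring

theorem WA0_cj_add (g : SL(2, ℝ)) (X Y : M2) : cj g (X + Y) = cj g X + cj g Y := by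
  unfold cj; noncomm_ring

theorem WA0_cj_sub (g : SL(2, ℝ)) (X Y : M2) : cj g (X - Y) = cj g X - cj g Y := by
  unfold cj; noncomm_ring

theorem WA0_cj_smul (g : SL(2, ℝ)) (t : ℝ) (X : M2) : cj g (t • X) = t • cj g X := by
  unfold cj; simp

theorem WA0_cj_one (g : SL(2, ℝ)) : cj g 1 = 1 := by
  unfold cj; rw [Matrix.mul_one, WA0_mul_inv]

theorem WA0_trace (g : SL(2, ℝ)) (X : M2) : (cj g X).trace = X.trace := by
  unfold cj; rw [Matrix.trace_mul_comm, ← Matrix.mul_assoc, WA0_inv_mul, Matrix.one_mul]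

theorem WA0_ip (g : SL(2, ℝ)) (X Y : M2) : ip (cj g X) (cj g Y) = ip X Y := by
  unfold ip; rw [← WA0_cj_mul, WA0_trace]

theorem WA0_neg (g : SL(2, ℝ)) (X : M2) : cj (-g) X = cj g X := by
  unfold cj
  have h1 : (-g).1 = -g.1 := rfl
  have h2 : ((-g)⁻¹).1 = -(g⁻¹).1 := by
    have h : (-g)⁻¹ = -g⁻¹ := by
      rw [inv_eq_iff_mul_eq_one]
      ext i j
      have := WA0_mul_inv g
      simp only [Matrix.SpecialLinearGroup.coe_mul, Matrix.SpecialLinearGroup.coe_neg,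
        Matrix.neg_mul, Matrix.mul_neg, neg_neg]
      exact congrFun (congrFun this i) j
    rw [h]; rfl
  rw [h1, h2]; noncomm_ring

/-- WA0: conjugation and scalar product -/
theorem WA0 : WA0_stmt := by
  refine ⟨WA0_ip, ?_, WA0_neg, ?_, fun g X Y => ⟨WA0_cj_add g X Y, WA0_cj_mul g X Y,
    WA0_cj_sub g X Y⟩, WA0_cj_smul, WA0_trace, ?_, ?_⟩
  · intro g h X
    unfold cj
    rw [_root_.mul_inv_rev]
    have h1 : (g * h).1 = g.1 * h.1 := rfl
    have h2 : (h⁻¹ * g⁻¹).1 = (h⁻¹).1 * (g⁻¹).1 := rfl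
    rw [h1, h2]; noncomm_ring
  · intro X
    unfold cj
    rw [inv_one]
    have h1 : (1 : SL(2, ℝ)).1 = (1 : M2) := rfl
    rw [h1, Matrix.one_mul, Matrix.mul_one]
  · intro g a x
    unfold smV
    rw [WA0_ip, WA0_cj_smul, WA0_cj_sub, WA0_cj_smul, WA0_cj_mul, WA0_cj_one]
  · intro g h X hgh
    rcases hgh with rfl | rfl
    · rfl
    · exact WA0_neg h X

end

end AdSBend
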