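import Pool.Agent.helper73.AD.GW1

/-!
WF0: invariances of the indicators and unit vectors of the leaves of `S'`.
-/

open scoped MatrixGroups LinearAlgebra.Projectivization BigOperators
open Matrix UpperHalfPlane
open Pool.Agent.helper73.AD (PS Word Arc sg Cone)

namespace AdSBend

noncomputable section

open LeafSystem

theorem WF0_peq_symm {g h : SL(2, ℝ)} (H : PEq g h) : PEq h g := by
  rcases H with rfl | rfl
  · exact Or.inl rfl
  · exact Or.inr (neg_neg h).symm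

theorem WF0_peq_trans {g h k : SL(2, ℝ)} (H : PEq g h) (H' : PEq h k) : PEq g k := by
  rcases H with rfl | rfl <;> rcases H' with rfl | rfl
  · exact Or.inl rfl
  · exact Or.inr rfl
  · exact Or.inr rfl
  · exact Or.inl (neg_neg k)

theorem WF0_peq_mul {g h g' h' : SL(2, ℝ)} (H : PEq g h) (H' : PEq g' h') :
    PEq (g * g') (h * h') := by
  rcases H with rfl | rfl <;> rcases H' with rfl | rfl
  · exact Or.inl rfl
  · exact Or.inr (mul_neg _ _)
  · exact Or.inr (neg_mul _ _)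
  · exact Or.inl (neg_mul_neg _ _)

/-- a representation sends `1` to `±1` -/
theorem WF0_one {Γ : Subgroup SL(2, ℝ)} {r : SL(2, ℝ) → SL(2, ℝ)} (hr : IsPRep Γ r) :
    PEq (r 1) 1 := by
  have h := hr 1 Γ.one_mem 1 Γ.one_mem 1 Γ.one_mem (Or.inl (mul_one 1).symm)
  rcases h with h | h
  · exact Or.inl (mul_left_cancel (h.symm.trans (mul_one (r 1)).symm))
  · right
    have h2 : r 1 * r 1 = r 1 * (-1) := by
      rw [mul_neg, mul_one]
      exact (neg_eq_iff_eq_neg.mpr h).symm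
    exact mul_left_cancel h2

/-- a representation respects `PEq` -/
theorem WF0_congr {Γ : Subgroup SL(2, ℝ)} {r : SL(2, ℝ) → SL(2, ℝ)} (hr : IsPRep Γ r)
    {g h : SL(2, ℝ)} (hg : g ∈ Γ) (hh : h ∈ Γ) (H : PEq g h) : PEq (r g) (r h) := by
  have h1 := hr h hh 1 Γ.one_mem g hg (by rwa [mul_one])
  have h2 := WF0_peq_mul (Or.inl rfl : PEq (r h) (r h)) (WF0_one hr)
  rw [mul_one] at h2
  exact WF0_peq_trans h1 h2

theorem WF0_inv {Γ : Subgroup SL(2, ℝ)} {r : SL(2, ℝ) → SL(2, ℝ)} (hr : IsPRep Γ r)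
    {g : SL(2, ℝ)} (hg : g ∈ Γ) : PEq (r g⁻¹) (r g)⁻¹ := by
  have h1 := hr g⁻¹ (Γ.inv_mem hg) g hg 1 Γ.one_mem (Or.inl (inv_mul_cancel g).symm)
  have h2 := WF0_peq_trans (WF0_peq_symm h1) (WF0_one hr)
  have h3 := WF0_peq_mul h2 (Or.inl rfl : PEq (r g)⁻¹ (r g)⁻¹)
  rwa [mul_assoc, mul_inv_cancel, mul_one, one_mul] at h3

theorem WF0_conj {Γ : Subgroup SL(2, ℝ)} {r : SL(2, ℝ) → SL(2, ℝ)} (hr : IsPRep Γ r)
    {g h : SL(2, ℝ)} (hg : g ∈ Γ) (hh : h ∈ Γ) :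
    PEq (r (h * g * h⁻¹)) (r h * r g * (r h)⁻¹) := by
  have hhi := Γ.inv_mem hh
  have hhg := Γ.mul_mem hh hg
  have h1 := hr (h * g) hhg h⁻¹ hhi (h * g * h⁻¹) (Γ.mul_mem hhg hhi) (Or.inl rfl)
  have h2 := hr h hh g hg (h * g) hhg (Or.inl rfl)
  exact WF0_peq_trans h1 (WF0_peq_mul h2 (WF0_inv hr hh))

/-- unit vectors of the leaves on which the representation is hyperbolic -/
theorem WF0_a (h1 : GM1_stmt) (h2 : GM2_stmt) (h3 : TW1_stmt) {Γ : Subgroup SL(2, ℝ)}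
    (hΓ : IsClosedSurfaceGroup Γ) {r : SL(2, ℝ) → SL(2, ℝ)} (hr : IsPRep Γ r) {b : Bd × Bd}
    (hb : IsClosedGeodesic Γ b.1 b.2) (hyp : 2 < |trc (r (gen Γ b))|) :
    (aV Γ r b).trace = 0 ∧ aV Γ r (sw b) = -aV Γ r b ∧
      ∀ γ ∈ Γ, aV Γ r (ga γ b) = cj (r γ) (aV Γ r b) := by
  obtain ⟨-, hT2, hT3, hT4⟩ := h3
  obtain ⟨-, hG2, hG3⟩ := h2 Γ hΓ
  have hgen : gen Γ b ∈ Γ := (h1 Γ hΓ b hb).1
  have hax : ∀ x y : SL(2, ℝ), 2 < |trc y| → PEq x y → axis x = axis y := by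
    intro x y hy hxy
    rcases hxy with rfl | rfl
    · rfl
    · exact (hT3 y 0 0 hy).2.2.2.1
  refine ⟨(hT4 _ hyp).2.1, ?_, ?_⟩
  · have hsw : IsClosedGeodesic Γ (sw b).1 (sw b).2 := by
      obtain ⟨hne, g, hg, hg1, hg2, hgx, hgy⟩ := hb
      exact ⟨hne.symm, g, hg, hg1, hg2, hgy, hgx⟩
    have hgsw : gen Γ (sw b) ∈ Γ := (h1 Γ hΓ (sw b) hsw).1
    have h4 : PEq (r (gen Γ (sw b))) (r (gen Γ b))⁻¹ :=
      WF0_peq_trans (WF0_congr hr hgsw (Γ.inv_mem hgen) (hG3 b hb)) (WF0_inv hr hgen)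
    have h5 := hT3 (r (gen Γ b)) 0 0 hyp
    unfold aV
    rcases h4 with h4 | h4
    · rw [h4]; exact h5.2.1
    · rw [h4]
      have h6 : -(r (gen Γ b))⁻¹ = (-(r (gen Γ b)))⁻¹ := by
        rw [eq_inv_iff_mul_eq_one, neg_mul_neg, inv_mul_cancel]
      have h7 : 2 < |trc (-(r (gen Γ b)))| := by
        have : trc (-(r (gen Γ b))) = -trc (r (gen Γ b)) := by
          unfold trc
          have e1 : (-(r (gen Γ b))).1 = -(r (gen Γ b)).1 := rfl
          rw [e1, Matrix.neg_apply, Matrix.neg_apply]; ring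
        rw [this, abs_neg]; exact hyp
      rw [h6, (hT3 _ 0 0 h7).2.1, h5.2.2.2.1]
  · intro γ hγ
    have hga : IsClosedGeodesic Γ (ga γ b).1 (ga γ b).2 := by
      obtain ⟨hne, g, hg, hg1, hg2, hgx, hgy⟩ := hb
      refine ⟨?_, γ * g * γ⁻¹, Γ.mul_mem (Γ.mul_mem hγ hg) (Γ.inv_mem hγ), ?_, ?_, ?_, ?_⟩
      · intro h; exact hne (MulAction.injective γ h)
      · intro h
        apply hg1
        have : g = γ⁻¹ * (γ * g * γ⁻¹) * γ := by group
        rw [this, h]; group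
      · intro h
        apply hg2
        have : g = γ⁻¹ * (γ * g * γ⁻¹) * γ := by group
        rw [this, h, mul_neg, neg_mul, mul_one, inv_mul_cancel]
      · change (γ * g * γ⁻¹) • (γ • b.1) = γ • b.1
        rw [mul_smul, mul_smul, inv_smul_smul, hgx]
      · change (γ * g * γ⁻¹) • (γ • b.2) = γ • b.2
        rw [mul_smul, mul_smul, inv_smul_smul, hgy]
    have hgga : gen Γ (ga γ b) ∈ Γ := (h1 Γ hΓ (ga γ b) hga).1
    have h4 : PEq (r (gen Γ (ga γ b))) (r γ * r (gen Γ b) * (r γ)⁻¹) :=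
      WF0_peq_trans (WF0_congr hr hgga (Γ.mul_mem (Γ.mul_mem hγ hgen) (Γ.inv_mem hγ))
        (hG2 b hb γ hγ)) (WF0_conj hr hgen hγ)
    have h5 := hT2 (r (gen Γ b)) (r γ) 0 hyp
    have h6 : trc (r γ * r (gen Γ b) * (r γ)⁻¹) = trc (r (gen Γ b)) := by
      have e1 : ∀ g : SL(2, ℝ), trc g = g.1.trace := fun g => (Matrix.trace_fin_two g.1).symm
      rw [e1, e1]
      have e2 : (r γ * r (gen Γ b) * (r γ)⁻¹).1 = (r γ).1 * (r (gen Γ b)).1 * ((r γ)⁻¹).1 := rfl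
      rw [e2, Matrix.trace_mul_comm, ← Matrix.mul_assoc, ← Matrix.SpecialLinearGroup.coe_mul,
        inv_mul_cancel, Matrix.SpecialLinearGroup.coe_one, Matrix.one_mul]
    unfold aV
    rw [hax _ _ (by rw [h6]; exact hyp) h4, h5.2]
    rfl

theorem WF0_ite {P Q : Prop} {hP : Decidable P} {hQ : Decidable Q} (H : P ↔ Q) :
    (if P then (1 : ℝ) else 0) = if Q then 1 else 0 := by
  by_cases h : P
  · rw [if_pos h, if_pos (H.mp h)]
  · rw [if_neg h, if_neg (fun q => h (H.mpr q))]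

/-- WF0: invariances of the indicators and unit vectors of the leaves of `S'` -/
theorem WF0 (h1 : GM1_stmt) (h2 : GM2_stmt) (h3 : TW1_stmt) (h4 : PT1_stmt) (h5 : BD2_stmt) :
    WF0_stmt := by
  refine ⟨?_, ?_, ?_, ?_⟩
  · intro g b z
    unfold chi
    have : BehindPt (ga g b) (g • z) ↔ BehindPt b z := (h4 g z b.1 b.2).1
    exact WF0_ite this
  · intro g b τ
    have : ∀ x : Bd, Behind (ga g b) (g • x) ↔ Behind b x := fun x => h5 g b.1 x b.2
    unfold chT gat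
    exact WF0_ite (and_congr (or_congr (this _) (this _)) (and_congr (or_congr (this _) (this _))
      (or_congr (this _) (this _))))
  · intro b τ
    unfold chT rotT
    have : ∀ P Q R : Prop, (P ∧ Q ∧ R) ↔ (Q ∧ R ∧ P) := by intro P Q R; tauto
    exact WF0_ite (this _ _ _)
  · intro Γ J K c b hb
    exact WF0_a h1 h2 h3 c.hΓ c.adm.1.1 (c.X.S'.closed b hb) (c.hyp b hb)

end

end AdSBend
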