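import Pool.Agent.helper33.AW.WA0

/-!
WF1: the flux as a sum over the translates of `l`.
-/

open scoped MatrixGroups LinearAlgebra.Projectivization BigOperators
open Matrix UpperHalfPlane
open Pool.Agent.helper73.AD (PS Word Arc sg Cone)

namespace AdSBend

noncomputable section

open LeafSystem

theorem WF1_ga_ga (g h : SL(2, ℝ)) (b : Bd × Bd) : ga g (ga h b) = ga (g * h) b := by
  simp only [ga, mul_smul]

theorem WF1_ga_sw (g : SL(2, ℝ)) (b : Bd × Bd) : ga g (sw b) = sw (ga g b) := rfl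

theorem WF1_ga_one (b : Bd × Bd) : ga 1 b = b := by
  simp only [ga, one_smul]

theorem WF1_sw_sw (b : Bd × Bd) : sw (sw b) = b := rfl

section

variable {Γ : Subgroup SL(2, ℝ)} {J K : Type} (c : WCtx Γ J K)

theorem WF1_orb_mem : ∀ b ∈ orb Γ c.l, b ∈ c.X.S'.L := by
  rintro b ⟨γ, hγ, rfl⟩
  exact c.X.S'.inv γ hγ _ (c.X.D'.memP c.k)

theorem WF1_orb_cls : ∀ b ∈ orb Γ c.l, c.X.D'.cls b = c.k := by
  rintro b ⟨γ, hγ, rfl⟩
  exact (c.X.D'.cls_ga γ hγ _ (c.X.D'.memP c.k)).trans (c.X.D'.clsP c.k)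

theorem WF1_orb_ga {γ : SL(2, ℝ)} (hγ : γ ∈ Γ) {b l : Bd × Bd} : ga γ b ∈ orb Γ l ↔ b ∈ orb Γ l := by
  constructor
  · rintro ⟨δ, hδ, h⟩
    refine ⟨γ⁻¹ * δ, Γ.mul_mem (Γ.inv_mem hγ) hδ, ?_⟩
    rw [← WF1_ga_ga, ← h, WF1_ga_ga, inv_mul_cancel, WF1_ga_one]
  · rintro ⟨δ, hδ, rfl⟩
    exact ⟨γ * δ, Γ.mul_mem hγ hδ, WF1_ga_ga _ _ _⟩

theorem WF1_orb_sw (h4 : WR2b_stmt) : ∀ b ∈ orb Γ c.l, sw b ∉ orb Γ c.l := by
  rintro b ⟨γ, hγ, rfl⟩ ⟨δ, hδ, h⟩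
  have h1 := (h4 Γ c.hΓ c.X.S' c.X.pants').2.2.2.2.2 c.l (c.X.D'.memP c.k) (γ⁻¹ * δ)
    (Γ.mul_mem (Γ.inv_mem hγ) hδ)
  apply h1
  rw [← WF1_ga_ga, ← h, ← WF1_ga_sw, WF1_ga_ga, inv_mul_cancel, WF1_ga_one]

/-- the leaves of class `k` between two points -/
def WF1_A (z z' : ℍ) : Set (Bd × Bd) :=
  {p : Bd × Bd | p ∈ c.X.S'.L ∧ FrontPt p z ∧ BehindPt p z' ∧ c.X.D'.cls p = c.k}

theorem WF1_A_fin (h1 : GM5_stmt) (z z' : ℍ) : (WF1_A c z z').Finite := by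
  refine ((h1 Γ c.hΓ c.X.S').1 z z').subset ?_
  rintro p ⟨hp, hp1, hp2, -⟩
  exact ⟨hp, mul_neg_of_neg_of_pos hp1 hp2⟩

theorem WF1_fx (z z' : ℍ) : c.fx z z' = ∑ᶠ p ∈ WF1_A c z z', c.a p := rfl

theorem WF1_chi_pos {b : Bd × Bd} {z : ℍ} (h : BehindPt b z) : chi b z = 1 := by
  unfold chi; exact if_pos h

theorem WF1_chi_neg {b : Bd × Bd} {z : ℍ} (h : FrontPt b z) : chi b z = 0 := by
  unfold chi; exact if_neg (fun h' => lt_asymm h h')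

/-- the cases for a leaf and two points off the leaves -/
theorem WF1_cases {z : ℍ} (hz : c.X.S'.OffPt z) {b : Bd × Bd} (hb : b ∈ c.X.S'.L) :
    FrontPt b z ∨ BehindPt b z := lt_or_gt_of_ne (hz b hb)

theorem WF1_ne {z z' : ℍ} (hz : c.X.S'.OffPt z) (hz' : c.X.S'.OffPt z') {b : Bd × Bd}
    (hb : b ∈ c.X.S'.L) (h : chi b z' ≠ chi b z) :
    (FrontPt b z ∧ BehindPt b z') ∨ (BehindPt b z ∧ FrontPt b z') := by
  rcases WF1_cases c hz hb with h1 | h1 <;> rcases WF1_cases c hz' hb with h2 | h2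
  · exact absurd ((WF1_chi_neg h2).trans (WF1_chi_neg h1).symm) h
  · exact Or.inl ⟨h1, h2⟩
  · exact Or.inr ⟨h1, h2⟩
  · exact absurd ((WF1_chi_pos h2).trans (WF1_chi_pos h1).symm) h

theorem WF1_side_sw (h5 : PT1_stmt) (b : Bd × Bd) (z : ℍ) :
    (FrontPt (sw b) z ↔ BehindPt b z) ∧ (BehindPt (sw b) z ↔ FrontPt b z) := by
  have h := (h5 1 z b.1 b.2).2.2.2
  unfold FrontPt BehindPt
  change (side z b.2 b.1 < 0 ↔ _) ∧ (0 < side z b.2 b.1 ↔ _)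
  rw [h]
  exact ⟨neg_lt_zero, neg_pos⟩

theorem WF1_fin (h1 : GM5_stmt) {z z' : ℍ} (hz : c.X.S'.OffPt z) (hz' : c.X.S'.OffPt z') :
    {b | b ∈ orb Γ c.l ∧ chi b z' ≠ chi b z}.Finite := by
  refine ((h1 Γ c.hΓ c.X.S').1 z z').subset ?_
  rintro b ⟨hb, hne⟩
  have hbL := WF1_orb_mem c b hb
  refine ⟨hbL, ?_⟩
  rcases WF1_ne c hz hz' hbL hne with ⟨h3, h4⟩ | ⟨h3, h4⟩
  · exact mul_neg_of_neg_of_pos h3 h4
  · exact mul_neg_of_pos_of_neg h3 h4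

theorem WF1_formula (h1 : GM5_stmt) (h3 : WF0_stmt) (h4 : WR2b_stmt) (h5 : PT1_stmt) {z z' : ℍ}
    (hz : c.X.S'.OffPt z) (hz' : c.X.S'.OffPt z') :
    c.fx z z' = ∑ᶠ b ∈ orb Γ c.l, (chi b z' - chi b z) • c.a b := by
  have hsw : ∀ b ∈ c.X.S'.L, c.a (sw b) = -c.a b := fun b hb => (h3.2.2.2 Γ J K c b hb).2.1
  set O₁ : Set (Bd × Bd) := {b | b ∈ orb Γ c.l ∧ FrontPt b z ∧ BehindPt b z'} with hO₁
  set O₂ : Set (Bd × Bd) := {b | b ∈ orb Γ c.l ∧ BehindPt b z ∧ FrontPt b z'} with hO₂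
  have hO₁f : O₁.Finite := (WF1_A_fin c h1 z z').subset fun b hb =>
    ⟨WF1_orb_mem c b hb.1, hb.2.1, hb.2.2, WF1_orb_cls c b hb.1⟩
  have hO₂f : O₂.Finite := (WF1_A_fin c h1 z' z).subset fun b hb =>
    ⟨WF1_orb_mem c b hb.1, hb.2.2, hb.2.1, WF1_orb_cls c b hb.1⟩
  have hd : Disjoint O₁ O₂ := by
    rw [Set.disjoint_left]
    intro b hb hb'
    exact lt_asymm hb.2.1 hb'.2.1
  have hR : ∑ᶠ b ∈ orb Γ c.l, (chi b z' - chi b z) • c.a b =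
      ∑ᶠ b ∈ O₁ ∪ O₂, (chi b z' - chi b z) • c.a b := by
    apply finsum_mem_inter_support_eq
    ext b
    constructor
    · rintro ⟨hb, hs⟩
      refine ⟨?_, hs⟩
      have hne : chi b z' ≠ chi b z := by
        intro h; apply hs
        change (chi b z' - chi b z) • c.a b = 0
        rw [h, sub_self, zero_smul]
      rcases WF1_ne c hz hz' (WF1_orb_mem c b hb) hne with h6 | h6
      · exact Or.inl ⟨hb, h6⟩
      · exact Or.inr ⟨hb, h6⟩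
    · rintro ⟨hb, hs⟩
      exact ⟨hb.elim (fun h => h.1) (fun h => h.1), hs⟩
  rw [hR, finsum_mem_union hd hO₁f hO₂f]
  have e1 : ∑ᶠ b ∈ O₁, (chi b z' - chi b z) • c.a b = ∑ᶠ b ∈ O₁, c.a b := by
    refine finsum_mem_congr rfl ?_
    intro b hb
    rw [WF1_chi_pos hb.2.2, WF1_chi_neg hb.2.1, sub_zero, one_smul]
  set A₂ : Set (Bd × Bd) := {p | p ∈ WF1_A c z z' ∧ sw p ∈ orb Γ c.l} with hA₂
  have e2 : ∑ᶠ b ∈ O₂, (chi b z' - chi b z) • c.a b = ∑ᶠ b ∈ A₂, c.a b := by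
    refine finsum_mem_eq_of_bijOn sw ⟨?_, ?_, ?_⟩ ?_
    · intro b hb
      have hbL := WF1_orb_mem c b hb.1
      refine ⟨⟨c.X.S'.swap b hbL, (WF1_side_sw h5 b z).1.mpr hb.2.1,
        (WF1_side_sw h5 b z').2.mpr hb.2.2, ?_⟩, hb.1⟩
      rw [c.X.D'.cls_sw b hbL]; exact WF1_orb_cls c b hb.1
    · intro b _ b' _ h
      have := congrArg sw h
      exact this
    · rintro p ⟨⟨hp, hp1, hp2, hp3⟩, hp4⟩
      exact ⟨sw p, ⟨hp4, (WF1_side_sw h5 (sw p) z).1.mp hp1,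
        (WF1_side_sw h5 (sw p) z').2.mp hp2⟩, rfl⟩
    · intro b hb
      rw [hsw b (WF1_orb_mem c b hb.1), WF1_chi_pos hb.2.1, WF1_chi_neg hb.2.2, zero_sub]
      exact neg_one_smul ℝ _
  rw [e1, e2]
  have hA₂f : A₂.Finite := (WF1_A_fin c h1 z z').subset fun p hp => hp.1
  have hd' : Disjoint O₁ A₂ := by
    rw [Set.disjoint_left]
    intro b hb hb'
    exact WF1_orb_sw c h4 b hb.1 hb'.2
  rw [← finsum_mem_union hd' hO₁f hA₂f, WF1_fx]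
  refine finsum_mem_congr ?_ (fun _ _ => rfl)
  ext p
  constructor
  · rintro ⟨hp, hp1, hp2, hp3⟩
    have hk : c.X.D'.cls (c.X.D'.P c.k) = c.X.D'.cls p := by rw [c.X.D'.clsP, hp3]
    obtain ⟨γ, hγ, h | h⟩ := c.X.D'.cls_inj _ (c.X.D'.memP c.k) p hp hk
    · exact Or.inl ⟨⟨γ, hγ, h⟩, hp1, hp2⟩
    · right
      refine ⟨⟨hp, hp1, hp2, hp3⟩, γ, hγ, ?_⟩
      rw [h]; rfl
  · rintro (⟨hp, hp1, hp2⟩ | ⟨hp, -⟩)
    · exact ⟨WF1_orb_mem c p hp, hp1, hp2, WF1_orb_cls c p hp⟩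
    · exact hp

end

/-- WF1: the flux as a sum over the translates of `l` -/
theorem WF1 (h1 : GM5_stmt) (h2 : PN5_stmt) (h3 : WF0_stmt) (h4 : WR2b_stmt)
    (h5 : PT1_stmt) : WF1_stmt := by
  intro Γ J K c
  refine ⟨fun b hb => ⟨WF1_orb_mem c b hb, WF1_orb_sw c h4 b hb⟩, ?_, ?_, ?_⟩
  · intro z z' hz hz'
    refine ⟨WF1_fin c h1 hz hz', WF1_formula c h1 h3 h4 h5 hz hz', ?_⟩
    rw [WF1_fx]
    refine finsum_mem_induction (fun X : M2 => X.trace = 0) (Matrix.trace_zero _ _) ?_ ?_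
    · intro X Y hX hY; rw [Matrix.trace_add, hX, hY, add_zero]
    · intro p hp; exact (h3.2.2.2 Γ J K c p hp.1).1
  · intro z z' z'' hz hz' hz''
    rw [WF1_formula c h1 h3 h4 h5 hz hz'', WF1_formula c h1 h3 h4 h5 hz hz',
      WF1_formula c h1 h3 h4 h5 hz' hz'']
    have hf : ∀ w w' : ℍ, c.X.S'.OffPt w → c.X.S'.OffPt w' →
        (orb Γ c.l ∩ Function.support fun b => (chi b w' - chi b w) • c.a b).Finite := by
      intro w w' hw hw'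
      refine (WF1_fin c h1 hw hw').subset ?_
      rintro b ⟨hb, hs⟩
      refine ⟨hb, fun h => hs ?_⟩
      change (chi b w' - chi b w) • c.a b = 0
      rw [h, sub_self, zero_smul]
    rw [← finsum_mem_add_distrib' (hf z z' hz hz') (hf z' z'' hz' hz'')]
    refine finsum_mem_congr rfl ?_
    intro b _
    rw [← add_smul]; congr 1; ring
  · intro γ hγ z z' hz hz'
    refine ⟨(h2 Γ c.X.S').2.2.1 γ hγ z hz, ?_⟩
    rw [WF1_fx, WF1_fx]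
    have hm : cj (c.ρ γ) (∑ᶠ p ∈ WF1_A c z z', c.a p) =
        ∑ᶠ p ∈ WF1_A c z z', cj (c.ρ γ) (c.a p) :=
      (AddMonoidHom.mk' (cj (c.ρ γ)) (WA0_cj_add (c.ρ γ))).map_finsum_mem _ (WF1_A_fin c h1 z z')
    rw [hm]
    symm
    have hinv : ∀ g : SL(2, ℝ), ∀ b : Bd × Bd, ∀ w : ℍ,
        (FrontPt (ga g b) (g • w) ↔ FrontPt b w) ∧ (BehindPt (ga g b) (g • w) ↔ BehindPt b w) :=
      fun g b w => ⟨(h5 g w b.1 b.2).2.1, (h5 g w b.1 b.2).1⟩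
    refine finsum_mem_eq_of_bijOn (ga γ) ⟨?_, ?_, ?_⟩ ?_
    · rintro p ⟨hp, hp1, hp2, hp3⟩
      exact ⟨c.X.S'.inv γ hγ p hp, (hinv γ p z).1.mpr hp1, (hinv γ p z').2.mpr hp2,
        (c.X.D'.cls_ga γ hγ p hp).trans hp3⟩
    · intro p _ q _ h
      have := congrArg (ga γ⁻¹) h
      rwa [WF1_ga_ga, WF1_ga_ga, inv_mul_cancel, WF1_ga_one, WF1_ga_one] at this
    · rintro q ⟨hq, hq1, hq2, hq3⟩
      have hq' : ga γ (ga γ⁻¹ q) = q := by rw [WF1_ga_ga, mul_inv_cancel, WF1_ga_one]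
      have hqL : ga γ⁻¹ q ∈ c.X.S'.L := c.X.S'.inv γ⁻¹ (Γ.inv_mem hγ) q hq
      refine ⟨ga γ⁻¹ q, ⟨hqL, ?_, ?_, ?_⟩, hq'⟩
      · rw [← (hinv γ _ z).1, hq']; exact hq1
      · rw [← (hinv γ _ z').2, hq']; exact hq2
      · rw [← c.X.D'.cls_ga γ hγ _ hqL, hq']; exact hq3
    · intro p hp
      exact ((h3.2.2.2 Γ J K c p hp.1).2.2 γ hγ).symm

end

end AdSBend
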