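import Pool.Agent.helper33.AW.WF1

/-!
WF2: finiteness for the virtual base points.
-/

open scoped MatrixGroups LinearAlgebra.Projectivization BigOperators
open Matrix UpperHalfPlane
open Pool.Agent.helper73.AD (PS Word Arc sg Cone)

namespace AdSBend

noncomputable section

open LeafSystem

/-- a leaf of `S` and a leaf of `S'` have four distinct endpoints -/
theorem WF2_end (hG3 : GM3_stmt) {Γ : Subgroup SL(2, ℝ)} {J K : Type} (c : WCtx Γ J K)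
    {v b : Bd × Bd} (hv : v ∈ c.X.S.L) (hb : b ∈ c.X.S'.L) :
    b.1 ≠ v.1 ∧ b.1 ≠ v.2 ∧ b.2 ≠ v.1 ∧ b.2 ≠ v.2 := by
  have hne : ∀ v ∈ c.X.S.L, b ≠ v := by
    intro v hv h
    obtain ⟨q, hq, hl⟩ := c.X.cross v hv
    rw [← h] at hl
    exact c.X.S'.unlinked b hb q hq hl
  have hv' := c.X.S.swap v hv
  have cb := c.X.S'.closed b hb
  have cb' := c.X.S'.closed _ (c.X.S'.swap b hb)
  have c1 := c.X.S.closed v hv
  have c2 := c.X.S.closed _ hv'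
  simp only at c2 cb'
  refine ⟨fun h => ?_, fun h => ?_, fun h => ?_, fun h => ?_⟩
  · rw [← h] at c1
    exact hne v hv (Prod.ext h (hG3 Γ c.hΓ _ _ _ cb c1))
  · rw [← h] at c2
    exact hne _ hv' (Prod.ext h (hG3 Γ c.hΓ _ _ _ cb c2))
  · rw [← h] at c1
    exact hne _ hv' (Prod.ext (hG3 Γ c.hΓ _ _ _ cb' c1) h)
  · rw [← h] at c2
    exact hne v hv (Prod.ext (hG3 Γ c.hΓ _ _ _ cb' c2) h)

/-- a leaf with a point behind `b` has an endpoint behind `b` -/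
theorem WF2_A (hB4 : BD4_stmt) (hB12 : BD12_stmt) (hPT1 : PT1_stmt) (hPT3 : PT3_stmt)
    (hG3 : GM3_stmt) {Γ : Subgroup SL(2, ℝ)} {J K : Type} (c : WCtx Γ J K)
    {v b : Bd × Bd} (hv : v ∈ c.X.S.L) (hb : b ∈ c.X.S'.L) {y : ℍ} (hy : side y v.1 v.2 = 0)
    (hyb : BehindPt b y) : Behind b v.1 ∨ Behind b v.2 := by
  obtain ⟨f1, f2, f3, f4, f5, f6, f7, f8, f9, f10, f11⟩ := id hB12
  obtain ⟨hne, hrot, hasy, htot, htr, -⟩ := id hB4
  have hasw : ∀ (z : ℍ) (q : Bd × Bd), side z q.2 q.1 = - side z q.1 q.2 :=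
    fun z q => (hPT1 1 z q.1 q.2).2.2.2
  have hyb' : 0 < side y b.1 b.2 := hyb
  by_cases hl : Linked b.1 b.2 v.1 v.2
  · rcases hl with h | h
    · exact Or.inl h.1
    · exact Or.inr h.1
  · obtain ⟨n1, n2, n3, n4⟩ := WF2_end hG3 c hv hb
    have hvne : v.1 ≠ v.2 := (c.X.S.closed v hv).1
    have hbne : b.1 ≠ b.2 := (c.X.S'.closed b hb).1
    have hl' : ¬ Linked v.1 v.2 b.1 b.2 := fun h => hl ((f10 _ _ _ _).1 h)
    have hy' : side y v.2 v.1 = 0 := by rw [hasw, hy, neg_zero]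
    rcases f8 v b hvne hbne n1.symm n3.symm n2.symm n4.symm hl' with h | h | h | h
    · exact Or.inr h.2
    · have h' := (f3 b v).1 h
      have h0 := hPT3.1 (v.2, v.1) (b.2, b.1) y h' hy'.ge
      simp only at h0
      rw [hasw] at h0
      linarith
    · have h1 := hPT3.2 v b y h hy.ge
      linarith
    · obtain ⟨g1, g2⟩ := h
      simp only at g1 g2
      exact Or.inr (hrot _ _ _ (hrot _ _ _ g2))

/-- a leaf with an endpoint behind `b` and one in front of `b` has an endpoint of `b` behind it -/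
theorem WF2_B (hB4 : BD4_stmt) {v b : Bd × Bd} (h1 : Behind b v.1 ∨ Behind b v.2)
    (h2 : Behind (sw b) v.1 ∨ Behind (sw b) v.2) : Behind v b.1 ∨ Behind v b.2 := by
  obtain ⟨hne, hrot, hasy, htot, htr, -⟩ := id hB4
  have hex : ∀ x, Behind b x → Behind (sw b) x → False := by
    intro x h h'
    exact hasy _ _ _ h (hrot _ _ _ (hrot _ _ _ h'))
  rcases h1 with h1 | h1 <;> rcases h2 with h2 | h2
  · exact (hex _ h1 h2).elim
  · right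
    have h1' : Cyc b.1 v.1 b.2 := h1
    have h2' : Cyc b.2 v.2 b.1 := h2
    exact (htr _ _ _ _ h1' (hrot _ _ _ (hrot _ _ _ h2'))).2
  · left
    have h1' : Cyc b.1 v.2 b.2 := h1
    have h2' : Cyc b.2 v.1 b.1 := h2
    exact (htr _ _ _ _ h2' (hrot _ _ _ (hrot _ _ _ h1'))).2
  · exact (hex _ h1 h2).elim

/-- no point is behind two facing leaves -/
theorem WF2_C (hB3 : BD3_stmt) (hB4 : BD4_stmt) {p q : Bd × Bd} (h : Facing p q) {x : Bd}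
    (h1 : Behind p x) (h2 : Behind q x) : False := by
  obtain ⟨hne, hrot, hasy, htot, htr, -⟩ := id hB4
  obtain ⟨F1, F2⟩ := h
  obtain ⟨φ, -, -, g3, g4, -⟩ := hB3 p.1
  have m1 : Cyc p.1 x p.2 := h1
  have m2 : Cyc q.1 x q.2 := h2
  have n1 : x ≠ p.1 := (hne _ _ _ m1).1.symm
  have n2 : p.2 ≠ p.1 := (hne _ _ _ m1).2.2
  have n3 : q.1 ≠ p.1 := (hne _ _ _ F2).1.symm
  have n4 : q.2 ≠ p.1 := (hne _ _ _ F2).2.2
  have q1 := (g3 _ _ n1 n2).1 m1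
  have q2 := (g3 _ _ n2 n3).1 F1
  have q3 := (g3 _ _ n3 n4).1 F2
  rcases (g4 _ _ _ n3 n1 n4).1 m2 with h | h | h <;> linarith [h.1, h.2]

/-- the three leaves of a hexagon cannot all cross `b` -/
theorem WF2_D (hB3 : BD3_stmt) (hB4 : BD4_stmt) {p q r b : Bd × Bd} (h1 : Facing p q)
    (h2 : Facing q r) (h3 : Facing r p) (k1 : Behind p b.1 ∨ Behind p b.2)
    (k2 : Behind q b.1 ∨ Behind q b.2) (k3 : Behind r b.1 ∨ Behind r b.2) : False := by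
  rcases k1 with k1 | k1 <;> rcases k2 with k2 | k2 <;> rcases k3 with k3 | k3
  · exact WF2_C hB3 hB4 h1 k1 k2
  · exact WF2_C hB3 hB4 h1 k1 k2
  · exact WF2_C hB3 hB4 h3 k3 k1
  · exact WF2_C hB3 hB4 h2 k2 k3
  · exact WF2_C hB3 hB4 h2 k2 k3
  · exact WF2_C hB3 hB4 h3 k3 k1
  · exact WF2_C hB3 hB4 h1 k1 k2
  · exact WF2_C hB3 hB4 h1 k1 k2

theorem WF2_chT_pos {b : Bd × Bd} {τ : Tri} (h : (Behind b τ.1.1 ∨ Behind b τ.1.2) ∧
    (Behind b τ.2.1.1 ∨ Behind b τ.2.1.2) ∧ (Behind b τ.2.2.1 ∨ Behind b τ.2.2.2)) :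
    chT b τ = 1 := by
  unfold chT; exact if_pos h

theorem WF2_chT_neg {b : Bd × Bd} {τ : Tri} (h : ¬ ((Behind b τ.1.1 ∨ Behind b τ.1.2) ∧
    (Behind b τ.2.1.1 ∨ Behind b τ.2.1.2) ∧ (Behind b τ.2.2.1 ∨ Behind b τ.2.2.2))) :
    chT b τ = 0 := by
  unfold chT; exact if_neg h

/-- WF2: finiteness for the virtual base points -/
theorem WF2 (hB3 : BD3_stmt) (hB4 : BD4_stmt) (hB12 : BD12_stmt) (hPT1 : PT1_stmt)
    (hPT3 : PT3_stmt) (hPT5 : PT5_stmt) (hG3 : GM3_stmt) (hG5 : GM5_stmt) : WF2_stmt := by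
  intro Γ J K c τ hτ z hz
  have hτ' : c.X.S.Hex τ.1 τ.2.1 τ.2.2 := hτ
  obtain ⟨C1, C2, C3, -, -⟩ := hτ'
  have L1 : τ.1 ∈ c.X.S.L := C1.1
  have L2 : τ.2.1 ∈ c.X.S.L := C1.2.1
  have L3 : τ.2.2 ∈ c.X.S.L := C2.2.1
  obtain ⟨z1, hz1⟩ := hPT5.2.1 τ.1.1 τ.1.2 (c.X.S.closed _ L1).1
  obtain ⟨z2, hz2⟩ := hPT5.2.1 τ.2.1.1 τ.2.1.2 (c.X.S.closed _ L2).1
  obtain ⟨z3, hz3⟩ := hPT5.2.1 τ.2.2.1 τ.2.2.2 (c.X.S.closed _ L3).1
  have hF := (hG5 Γ c.hΓ c.X.S').2.1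
  refine (((hF z z1).union (hF z z2)).union (hF z z3)).subset ?_
  rintro b ⟨hb, hne⟩
  have hbL := WF1_orb_mem c b hb
  have hbL' := c.X.S'.swap b hbL
  by_contra hcon
  simp only [Set.mem_union, Set.mem_ofPred_eq, not_or, not_and, not_le] at hcon
  obtain ⟨⟨c1, c2⟩, c3⟩ := hcon
  replace c1 := c1 hbL
  replace c2 := c2 hbL
  replace c3 := c3 hbL
  apply hne
  rcases WF1_cases c hz hbL with h | h
  · -- all points are in front
    rw [WF1_chi_neg h]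
    apply WF2_chT_neg
    rintro ⟨k1, k2, k3⟩
    have h' : side z b.1 b.2 < 0 := h
    have hB : ∀ y : ℍ, 0 < side z b.1 b.2 * side y b.1 b.2 → BehindPt (sw b) y := by
      intro y hy
      rw [(WF1_side_sw hPT1 b y).2]
      exact neg_of_mul_pos_right hy h'.le
    have w1 := WF2_A hB4 hB12 hPT1 hPT3 hG3 c L1 hbL' hz1 (hB z1 c1)
    have w2 := WF2_A hB4 hB12 hPT1 hPT3 hG3 c L2 hbL' hz2 (hB z2 c2)
    have w3 := WF2_A hB4 hB12 hPT1 hPT3 hG3 c L3 hbL' hz3 (hB z3 c3)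
    exact WF2_D hB3 hB4 C1.2.2.1 C2.2.2.1 C3.2.2.1 (WF2_B hB4 k1 w1) (WF2_B hB4 k2 w2)
      (WF2_B hB4 k3 w3)
  · rw [WF1_chi_pos h]
    apply WF2_chT_pos
    have h' : 0 < side z b.1 b.2 := h
    have hB : ∀ y : ℍ, 0 < side z b.1 b.2 * side y b.1 b.2 → BehindPt b y := by
      intro y hy
      exact (mul_pos_iff_of_pos_left h').mp hy
    exact ⟨WF2_A hB4 hB12 hPT1 hPT3 hG3 c L1 hbL hz1 (hB z1 c1),
      WF2_A hB4 hB12 hPT1 hPT3 hG3 c L2 hbL hz2 (hB z2 c2),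
      WF2_A hB4 hB12 hPT1 hPT3 hG3 c L3 hbL hz3 (hB z3 c3)⟩

end

end AdSBend
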