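import Pool.Agent.helper33.AW.WF0
import Pool.Agent.helper33.AW.WF2

/-!
WF4: the function `Psi` satisfies the hypotheses of WR4.
-/

open scoped MatrixGroups LinearAlgebra.Projectivization BigOperators
open Matrix UpperHalfPlane
open Pool.Agent.helper73.AD (PS Word Arc sg Cone)

namespace AdSBend

noncomputable section

open LeafSystem

/-- a plaque not crossed by `b`: all indicators agree -/
theorem WF4_supp (hB4 : BD4_stmt) (hB12 : BD12_stmt) (hPT1 : PT1_stmt)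
    (hPT3 : PT3_stmt) (hG3 : GM3_stmt) (h1 : WR2b_stmt) (h2 : WF3_stmt)
    {Γ : Subgroup SL(2, ℝ)} {J K : Type} (c : WCtx Γ J K) (B : c.Base) {τ : Tri} {b : Bd × Bd}
    (hτ : c.X.S.IsHex τ) (hb : b ∈ orb Γ c.l) (hn : ¬ c.Crosses τ b) :
    chT b τ = chi b (B.y τ) ∧ chT b τ = chT b (mir Γ τ) := by
  obtain ⟨-, -, hr3, -, hr5, -⟩ := h1 Γ c.hΓ c.X.S c.X.pants
  have hw := h2 Γ J K c τ hτ b hb hn
  obtain ⟨L1, L2, L3, C1, C2, C3, -, -⟩ := hr5 τ hτ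
  obtain ⟨-, hmir, hnxt, -, -, -⟩ := hr3 τ hτ
  obtain ⟨-, -, M3, -, D2, -, -, -⟩ := hr5 _ hnxt
  have D2' : c.X.S.CoPl τ.1 (ga (gen Γ τ.1) τ.2.1) := D2
  have w1 := hw τ.1 (Or.inl rfl)
  have w2 := hw τ.2.1 (Or.inr C1)
  have w3 := hw τ.2.2 (Or.inr C2)
  have w4 := hw (ga (gen Γ τ.1) τ.2.1) (Or.inr D2')
  have hbL := WF1_orb_mem c b hb
  by_cases hbt : Behind b τ.1.1
  · have e1 : chT b τ = 1 := WF2_chT_pos ⟨Or.inl hbt, Or.inl (w2.1.mpr hbt), Or.inl (w3.1.mpr hbt)⟩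
    have e2 : chT b (mir Γ τ) = 1 :=
      WF2_chT_pos ⟨Or.inl (w3.1.mpr hbt), Or.inl (w4.1.mpr hbt), Or.inl hbt⟩
    refine ⟨?_, e1.trans e2.symm⟩
    rcases WF1_cases c (B.y_off τ hτ) hbL with h | h
    · exfalso
      have hsw : BehindPt (sw b) (B.y τ) := (WF1_side_sw hPT1 b _).2.mpr h
      have := WF2_A hB4 hB12 hPT1 hPT3 hG3 c L1 (c.X.S'.swap b hbL) (B.y_on τ hτ) hsw
      obtain ⟨hne, hrot, hasy, -, -, -⟩ := hB4
      rcases this with h3 | h3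
      · exact hasy _ _ _ hbt (hrot _ _ _ (hrot _ _ _ h3))
      · exact hasy _ _ _ (w1.2.mpr hbt) (hrot _ _ _ (hrot _ _ _ h3))
    · rw [WF1_chi_pos h, e1]
  · have e1 : chT b τ = 0 := by
      apply WF2_chT_neg
      rintro ⟨h | h, -⟩
      · exact hbt h
      · exact hbt (w1.2.mp h)
    have e2 : chT b (mir Γ τ) = 0 := by
      apply WF2_chT_neg
      rintro ⟨h | h, -⟩
      · exact hbt (w3.1.mp h)
      · exact hbt (w3.2.mp h)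
    refine ⟨?_, e1.trans e2.symm⟩
    rcases WF1_cases c (B.y_off τ hτ) hbL with h | h
    · rw [WF1_chi_neg h, e1]
    · exfalso
      rcases WF2_A hB4 hB12 hPT1 hPT3 hG3 c L1 hbL (B.y_on τ hτ) h with h3 | h3
      · exact hbt h3
      · exact hbt (w1.2.mp h3)

/-- WF4: the function `Psi` satisfies the hypotheses of WR4 -/
theorem WF4 (hB4 : BD4_stmt) (hB12 : BD12_stmt) (hPT1 : PT1_stmt)
    (hPT3 : PT3_stmt) (hG1 : GM1_stmt) (hG2 : GM2_stmt) (hG3 : GM3_stmt) (hT1 : TW1_stmt)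
    (hF1 : FB1_stmt) (h1 : WR2b_stmt) (h2 : WF3_stmt) (h3 : WF2_stmt) (h4 : WF0_stmt)
    (h5 : WA0_stmt) : WF4_stmt := by
  intro Γ J K c B x'
  obtain ⟨-, -, hr3, hr4, hr5, -⟩ := h1 Γ c.hΓ c.X.S c.X.pants
  refine ⟨?_, ?_, ?_⟩
  · intro γ hγ τ b hτ hb
    obtain ⟨L1, L2, L3, -, -, -, -, -⟩ := hr5 τ hτ
    have hbL := WF1_orb_mem c b hb
    have hS : ∀ p ∈ c.X.S.L, c.a (ga γ p) = cj (c.ρ γ) (c.a p) := fun p hp =>
      (WF0_a hG1 hG2 hT1 c.hΓ c.adm.1.1 (c.X.S.closed p hp) (c.adm.1.2.1 p hp)).2.2 γ hγ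
    have ea : c.a (ga γ b) = cj (c.ρ γ) (c.a b) := (h4.2.2.2 Γ J K c b hbL).2.2 γ hγ
    have es : c.s (ga γ τ.1) (ga γ τ.2.2) = cj (c.ρ γ) (c.s τ.1 τ.2.2) := by
      have e1 : c.s (ga γ τ.1) (ga γ τ.2.2) = smV (c.a (ga γ τ.1)) (c.a (ga γ τ.2.2)) := rfl
      rw [e1, hS _ L1, hS _ L3]
      exact h5.2.2.2.2.2.2.2.1 _ _ _
    have hlen : ∀ p ∈ c.X.S.L, xL Γ c.ρ (ga γ p) = xL Γ c.ρ p := fun p hp =>
      ((hF1 Γ c.hΓ c.X.S c.ρ c.adm).2.2.2.2 p hp).2.2 γ hγ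
    have hcls : ∀ p ∈ c.X.S.L, c.cls (ga γ p) = c.cls p := fun p hp =>
      c.X.D.cls_ga γ hγ p hp
    have eds : ds Γ c.ρ (fun p => x' (c.cls p)) (ga γ τ.1) (ga γ τ.2.2) (ga γ τ.2.1) =
        ds Γ c.ρ (fun p => x' (c.cls p)) τ.1 τ.2.2 τ.2.1 := by
      unfold ds
      simp only [hlen _ L1, hlen _ L2, hlen _ L3, hcls _ L1, hcls _ L2, hcls _ L3]
    have em : mir Γ (gat γ τ) = gat γ (mir Γ τ) := (hr4 γ hγ τ hτ).2.1
    have e1 : B.y (gat γ τ) = γ • B.y τ := B.y_ga γ hγ τ hτ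
    unfold WCtx.Base.Psi
    rw [em, e1, h4.1, h4.2.1, h4.2.1, ea]
    change (x' (c.cls (ga γ τ.1)) / 2) * _ * ip _ (c.a (ga γ τ.1)) + (1 / 2) *
      ds Γ c.ρ (fun p => x' (c.cls p)) (ga γ τ.1) (ga γ τ.2.2) (ga γ τ.2.1) * _ *
      ip _ (c.s (ga γ τ.1) (ga γ τ.2.2)) = _
    rw [hcls _ L1, hS _ L1, es, eds, h5.1, h5.1]
  · intro τ hτ
    obtain ⟨-, hmir, -, -, -, -⟩ := hr3 τ hτ
    have f1 := h3 Γ J K c τ hτ (B.y τ) (B.y_off τ hτ)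
    have f2 := h3 Γ J K c (mir Γ τ) hmir (B.y τ) (B.y_off τ hτ)
    refine (f1.union f2).subset ?_
    rintro b ⟨hb, hne⟩
    by_contra hcon
    simp only [Set.mem_union, Set.mem_ofPred_eq, not_or, not_and, not_not] at hcon
    apply hne
    have k1 := hcon.1 hb
    have k2 := hcon.2 hb
    unfold WCtx.Base.Psi
    rw [k1, k2]
    ring
  · intro τ b hτ hb hne
    by_contra hcon
    apply hne
    obtain ⟨k1, k2⟩ := WF4_supp hB4 hB12 hPT1 hPT3 hG3 h1 h2 c B hτ hb hcon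
    unfold WCtx.Base.Psi
    rw [← k2, ← k1]
    ring

end

end AdSBend
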