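import Pool.Agent.helper73.AD.GW1

/-!
WR1: two systems of representatives give the same sum.
-/

open scoped MatrixGroups LinearAlgebra.Projectivization BigOperators
open Matrix UpperHalfPlane
open Pool.Agent.helper73.AD (PS Word Arc sg Cone)

namespace AdSBend

noncomputable section

open LeafSystem

/-- WR1: two systems of representatives give the same sum -/
theorem WR1 : WR1_stmt := by
  classical
  intro Z R F S₁ S₂ hR hF h1 h2
  rw [← finsum_mem_inter_support F S₁, ← finsum_mem_inter_support F S₂]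
  set e : Z → Z := fun z => if h : F z ≠ 0 then (h2 z h).choose else z with he
  have heq : ∀ z, F z ≠ 0 → e z ∈ S₂ ∧ R z (e z) := by
    intro z hz
    have : e z = (h2 z hz).choose := by simp only [he]; rw [dif_pos hz]
    rw [this]
    exact (h2 z hz).choose_spec.1
  refine finsum_mem_eq_of_bijOn e ⟨?_, ?_, ?_⟩ ?_
  · rintro z ⟨hz1, hz2⟩
    have h := heq z hz2
    refine ⟨h.1, ?_⟩
    rw [Function.mem_support, ← hF z _ h.2]
    exact hz2
  · rintro z ⟨hz1, hz2⟩ z' ⟨hz1', hz2'⟩ hzz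
    have h := heq z hz2
    have h' := heq z' hz2'
    rw [← hzz] at h'
    have hr : R z z' := hR.trans h.2 (hR.symm h'.2)
    obtain ⟨w, hw, hw'⟩ := h1 z hz2
    exact (hw' z ⟨hz1, hR.refl z⟩).trans (hw' z' ⟨hz1', hr⟩).symm
  · rintro w ⟨hw1, hw2⟩
    obtain ⟨z, ⟨hz, hwz⟩, -⟩ := h1 w hw2
    have hFz : F z ≠ 0 := by rw [← hF w z hwz]; exact hw2
    refine ⟨z, ⟨hz, hFz⟩, ?_⟩
    have h := heq z hFz
    obtain ⟨v, hv, hv'⟩ := h2 z hFz
    exact (hv' (e z) h).trans (hv' w ⟨hw1, hR.symm hwz⟩).symm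
  · rintro z ⟨hz1, hz2⟩
    exact hF z _ (heq z hz2).2

end

end AdSBend
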